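import Pool.Agent.Y403.VW.Fin

/-!
# The lightface version of the Velickovic-Woodin theorem fails for all finite joins

There is a countable set `C` of reals such that every countable set `Γ` of reals disjoint from `C`
can be avoided: there are a real `y` and a closed set `A` of reals which is `Σ¹₁(y)` and has an
element `x` with `ω₁^{CK(x)} > ω₁^{CK(y)}`, such that no element of `Γ` is hyperarithmetic in the
join of finitely many elements of `A`.

The starting result `LightfaceJoinFails` is the case of one real `γ` and of joins of four elements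
(and does not say that `A` is closed).
-/

set_option autoImplicit false

open Set

namespace Pool.Agent.Results.MP_120e55_lc.FiniteJoins

open Pool.Agent.H654R2 Pool.Agent.Y403.VW

theorem result :
    ∃ C : Set (ℕ → Bool), C.Countable ∧
      ∀ Γ : Set (ℕ → Bool), Γ.Countable → Disjoint Γ C →
        ∃ (y : ℕ → Bool) (A : Set (ℕ → Bool)), IsSigma11Set y A ∧ IsClosed A ∧
          (∃ x ∈ A, omega1CK y < omega1CK x) ∧
          ∀ γ ∈ Γ, ∀ (k : ℕ) (u : Fin k → ℕ → Bool), (∀ i, u i ∈ A) →
            ¬ HypIn γ (joinFin k u) := by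
  obtain ⟨C, hC, hmain⟩ := Pool.Agent.Y403.VW.main_construction
  refine ⟨C, hC, fun Γ hΓ hdis => ?_⟩
  obtain ⟨γ₀, hγ₀⟩ : ∃ γ₀ : ℕ → Bool, γ₀ ∉ C := by
    by_contra hcon
    push Not at hcon
    have h1 : (Set.univ : Set (ℕ → Bool)).Countable := hC.mono (fun γ _ => hcon γ)
    have h2 : Countable (ℕ → Bool) := Set.countable_univ_iff.1 h1
    obtain ⟨f, hf⟩ := exists_surjective_nat (ℕ → Bool)
    obtain ⟨n, hn⟩ := hf (fun n => !f n n)
    have h3 := congrFun hn n
    cases h4 : f n n <;> simp [h4] at h3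
  obtain ⟨G, hG⟩ := (hΓ.insert γ₀).exists_eq_range (Set.insert_nonempty _ _)
  have hGC : ∀ w, G w ∉ C := by
    intro w hw
    have h1 : G w ∈ insert γ₀ Γ := by rw [hG]; exact Set.mem_range_self w
    rcases h1 with h1 | h1
    · exact hγ₀ (h1 ▸ hw)
    · exact (Set.disjoint_left.1 hdis) h1 hw
  obtain ⟨y, x, hx, hlt, hγ⟩ := hmain G hGC
  refine ⟨Theta y, Xi '' AY y, isSigma11Set_AY y, isClosed_image y, ⟨Xi x, ⟨x, hx, rfl⟩, hlt⟩, ?_⟩
  intro γ hγΓ k u hu
  have h1 : γ ∈ Set.range G := by rw [← hG]; exact Set.mem_insert_of_mem _ hγΓ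
  obtain ⟨w, rfl⟩ := h1
  exact hγ w k u hu

end Pool.Agent.Results.MP_120e55_lc.FiniteJoins
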